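import Pool.Agent.W355.FR.Stm

namespace Pool.Agent.W499.FR

open Polynomial UniqueFactorizationMonoid Pool.Agent.W355.FR

noncomputable section
open Classical

def v (P f : ℚ[X]) : ℕ := Multiset.count P (normalizedFactors f)

lemma v_mul (P : ℚ[X]) {f g : ℚ[X]} (hf : f ≠ 0) (hg : g ≠ 0) :
    v P (f * g) = v P f + v P g := by
  unfold v
  rw [normalizedFactors_mul hf hg, Multiset.count_add]

lemma v_pow (P : ℚ[X]) (f : ℚ[X]) (n : ℕ) : v P (f ^ n) = n * v P f := by
  unfold v
  rw [normalizedFactors_pow, Multiset.count_nsmul]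

lemma v_pos {P f : ℚ[X]} (hP : Irreducible P) (hm : P.Monic) (hf : f ≠ 0) :
    0 < v P f ↔ P ∣ f := by
  unfold v
  rw [Multiset.count_pos, Polynomial.mem_normalizedFactors_iff hf]
  tauto

lemma pow_dvd {P f : ℚ[X]} (hf : f ≠ 0) {n : ℕ} (h : n ≤ v P f) : P ^ n ∣ f := by
  unfold v at h
  rw [Multiset.le_count_iff_replicate_le] at h
  have h1 := Multiset.prod_dvd_prod_of_le h
  rw [Multiset.prod_replicate] at h1
  exact h1.trans (prod_normalizedFactors hf).dvd

lemma deg_formula {f : ℚ[X]} (hf : f ≠ 0) {S : Finset ℚ[X]}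
    (hS : ∀ P ∈ normalizedFactors f, P ∈ S) :
    f.natDegree = ∑ P ∈ S, v P f * P.natDegree := by
  have h1 : f.natDegree = (normalizedFactors f).prod.natDegree :=
    (Polynomial.natDegree_eq_of_degree_eq
      (Polynomial.degree_eq_degree_of_associated (prod_normalizedFactors hf))).symm
  rw [h1, Polynomial.natDegree_multiset_prod _ (zero_notMem_normalizedFactors f),
    Finset.sum_multiset_map_count]
  simp only [smul_eq_mul]
  refine Finset.sum_subset (fun P hP => hS P (Multiset.mem_toFinset.1 hP)) ?_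
  intro P _ hP
  rw [Multiset.mem_toFinset, ← Multiset.count_eq_zero] at hP
  rw [hP, zero_mul]

lemma rad_deg {f : ℚ[X]} {S : Finset ℚ[X]}
    (hS : ∀ P ∈ normalizedFactors f, P ∈ S) (e : ℚ[X] → ℕ)
    (he : ∀ P ∈ normalizedFactors f, 1 ≤ e P) :
    (radical f).natDegree ≤ ∑ P ∈ S, e P * P.natDegree := by
  unfold radical
  refine (Polynomial.natDegree_prod_le _ _).trans ?_
  refine le_trans (Finset.sum_le_sum (g := fun P => e P * P.natDegree) ?_) ?_
  · intro P hP
    rw [mem_primeFactors] at hP
    have := he P hP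
    simp only [id]
    nlinarith [Nat.zero_le P.natDegree]
  · refine Finset.sum_le_sum_of_subset ?_
    intro P hP
    rw [mem_primeFactors] at hP
    exact hS P hP

lemma localIneq (al be de g u v w f e : ℕ) (h1 : 3 * al = g + u) (h2 : 2 * be = g + v)
    (h3 : de = g + w) (h4 : u = 0 ∨ v = 0) (h5 : u = 0 ∨ w = 0) (h6 : v = 0 ∨ w = 0)
    (h7 : ¬ (4 ≤ al ∧ 6 ≤ be)) (he : e = if 0 < u + v + w then 1 else 0)
    (hf1 : 0 < de → al = 0 → f = 1) (hf2 : 0 < de → 0 < al → f = 2) :
    6 * e + g ≤ 2 * u + 3 * v + 6 * f := by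
  rcases Nat.eq_zero_or_pos de with hd | hd
  · split_ifs at he <;> omega
  · rcases Nat.eq_zero_or_pos al with ha | ha
    · have := hf1 hd ha
      split_ifs at he <;> omega
    · have := hf2 hd ha
      split_ifs at he <;> omega

theorem msq : P_MSQ := by
  intro k A B hA hB hDd hD0 hmin hder T hT1 hT2 hT3 w hw2 hw1
  have hA0 : A ≠ 0 := by
    rintro rfl
    simp at hder
  have hB0 : B ≠ 0 := by
    rintro rfl
    simp at hder
  set D := 4 * A ^ 3 + 27 * B ^ 2 with hD
  obtain ⟨a, b, hGa, hGb, hu⟩ := extract_gcd (A ^ 3) (B ^ 2)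
  set G := GCDMonoid.gcd (A ^ 3) (B ^ 2) with hG
  have hab : IsCoprime a b := (gcd_isUnit_iff _ _).1 hu
  have hA30 : A ^ 3 ≠ 0 := pow_ne_zero _ hA0
  have hB20 : B ^ 2 ≠ 0 := pow_ne_zero _ hB0
  have hG0 : G ≠ 0 := by
    intro h
    rw [h, zero_mul] at hGa
    exact hA30 hGa
  have ha0 : a ≠ 0 := by
    rintro rfl
    rw [mul_zero] at hGa
    exact hA30 hGa
  have hb0 : b ≠ 0 := by
    rintro rfl
    rw [mul_zero] at hGb
    exact hB20 hGb
  set W := 4 * a + 27 * b with hW
  have hDW : D = G * W := by
    rw [hD, hGa, hGb, hW]; ring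
  have hW0 : W ≠ 0 := by
    intro h
    rw [h, mul_zero] at hDW
    exact hD0 hDW
  have hu4 : IsUnit (4 : ℚ[X]) := by
    have : (4 : ℚ[X]) = C 4 := (map_ofNat C 4).symm
    rw [this]
    exact Polynomial.isUnit_C.2 (by norm_num)
  have hu27 : IsUnit (27 : ℚ[X]) := by
    have : (27 : ℚ[X]) = C 27 := (map_ofNat C 27).symm
    rw [this]
    exact Polynomial.isUnit_C.2 (by norm_num)
  have h4a0 : (4 : ℚ[X]) * a ≠ 0 := mul_ne_zero hu4.ne_zero ha0
  have h27b0 : (27 : ℚ[X]) * b ≠ 0 := mul_ne_zero hu27.ne_zero hb0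
  have hcop : IsCoprime (4 * a) (27 * b) :=
    (isCoprime_mul_unit_left_left hu4 _ _).2 ((isCoprime_mul_unit_left_right hu27 _ _).2 hab)
  have haW : IsCoprime a W := by
    have h1 : IsCoprime a (27 * b) := (isCoprime_mul_unit_left_right hu27 _ _).2 hab
    have h2 : IsCoprime a (27 * b + a * 4) := h1.add_mul_left_right 4
    have h3 : W = 27 * b + a * 4 := by rw [hW]; ring
    rw [h3]; exact h2
  have hbW : IsCoprime b W := by
    have h1 : IsCoprime b (4 * a) := (isCoprime_mul_unit_left_right hu4 _ _).2 hab.symm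
    have h2 : IsCoprime b (4 * a + b * 27) := h1.add_mul_left_right 27
    have h3 : W = 4 * a + b * 27 := by rw [hW]; ring
    rw [h3]; exact h2
  have habc := Polynomial.abc h4a0 h27b0 (neg_ne_zero.2 hW0) hcop (by rw [hW]; ring)
  rcases habc with habc | habc
  swap
  · exfalso
    obtain ⟨d1, d2, -⟩ := habc
    have d1' : derivative a = 0 := by
      have : derivative (4 * a) = 4 * derivative a := by
        rw [derivative_mul]; simp
      rw [this] at d1
      exact (mul_eq_zero.1 d1).resolve_left hu4.ne_zero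
    have d2' : derivative b = 0 := by
      have : derivative (27 * b) = 27 * derivative b := by
        rw [derivative_mul]; simp
      rw [this] at d2
      exact (mul_eq_zero.1 d2).resolve_left hu27.ne_zero
    have e1 : A ^ 3 * b = B ^ 2 * a := by
      rw [hGa, hGb]; ring
    have e2 := congrArg derivative e1
    rw [derivative_mul, derivative_mul, d1', d2', derivative_pow, derivative_pow] at e2
    simp only [mul_zero, add_zero, Nat.cast_ofNat, Nat.add_one_sub_one] at e2
    norm_num at e2
    rw [show (C (3 : ℚ)) = 3 from map_ofNat C 3, show (C (2 : ℚ)) = 2 from map_ofNat C 2] at e2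
    have e3 : A ^ 2 * b * (3 * derivative A * B - 2 * A * derivative B) = 0 := by
      linear_combination B * e2 - 2 * derivative B * e1
    rcases mul_eq_zero.1 e3 with h | h
    · rcases mul_eq_zero.1 h with h | h
      · exact (pow_ne_zero _ hA0) h
      · exact hb0 h
    · exact hder h
  · have hR := habc.2.2
    rw [natDegree_neg] at hR
    -- the big set of primes
    set N := A * B * D * (G * a * b * W) with hN
    have hN0 : N ≠ 0 := by
      rw [hN]
      exact mul_ne_zero (mul_ne_zero (mul_ne_zero hA0 hB0) hD0)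
        (mul_ne_zero (mul_ne_zero (mul_ne_zero hG0 ha0) hb0) hW0)
    set S : Finset ℚ[X] := (normalizedFactors N).toFinset with hS
    have hSmem : ∀ P, P ∈ S ↔ Irreducible P ∧ P.Monic ∧ P ∣ N := by
      intro P
      rw [hS, Multiset.mem_toFinset, Polynomial.mem_normalizedFactors_iff hN0]
    have hsub : ∀ f : ℚ[X], f ≠ 0 → f ∣ N → ∀ P ∈ normalizedFactors f, P ∈ S := by
      intro f hf hfN P hP
      rw [Polynomial.mem_normalizedFactors_iff hf] at hP
      rw [hSmem]
      exact ⟨hP.1, hP.2.1, hP.2.2.trans hfN⟩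
    have dG : G.natDegree = ∑ P ∈ S, v P G * P.natDegree :=
      deg_formula hG0 (hsub _ hG0 ⟨A * B * D * (a * b * W), by rw [hN]; ring⟩)
    have da : a.natDegree = ∑ P ∈ S, v P a * P.natDegree :=
      deg_formula ha0 (hsub _ ha0 ⟨A * B * D * (G * b * W), by rw [hN]; ring⟩)
    have db : b.natDegree = ∑ P ∈ S, v P b * P.natDegree :=
      deg_formula hb0 (hsub _ hb0 ⟨A * B * D * (G * a * W), by rw [hN]; ring⟩)
    set e : ℚ[X] → ℕ := fun P => if 0 < v P a + v P b + v P W then 1 else 0 with he
    have hmul : ∀ P, P ∣ 4 * a * (27 * b) * -W → Irreducible P → P ∣ a ∨ P ∣ b ∨ P ∣ W := by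
      intro P hP hirr
      have hp := hirr.prime
      rcases hp.dvd_or_dvd hP with h | h
      · rcases hp.dvd_or_dvd h with h | h
        · rcases hp.dvd_or_dvd h with h | h
          · exact absurd (isUnit_of_dvd_unit h hu4) hirr.not_isUnit
          · exact Or.inl h
        · rcases hp.dvd_or_dvd h with h | h
          · exact absurd (isUnit_of_dvd_unit h hu27) hirr.not_isUnit
          · exact Or.inr (Or.inl h)
      · exact Or.inr (Or.inr ((dvd_neg).1 h))
    have habc0 : 4 * a * (27 * b) * -W ≠ 0 := mul_ne_zero (mul_ne_zero h4a0 h27b0) (neg_ne_zero.2 hW0)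
    have hrad : (radical (4 * a * (27 * b) * -W)).natDegree ≤ ∑ P ∈ S, e P * P.natDegree := by
      refine rad_deg ?_ e ?_
      · intro P hP
        rw [Polynomial.mem_normalizedFactors_iff habc0] at hP
        rw [hSmem]
        refine ⟨hP.1, hP.2.1, ?_⟩
        rcases hmul P hP.2.2 hP.1 with h | h | h
        · exact h.trans ⟨A * B * D * (G * b * W), by rw [hN]; ring⟩
        · exact h.trans ⟨A * B * D * (G * a * W), by rw [hN]; ring⟩
        · exact h.trans ⟨A * B * D * (G * a * b), by rw [hN]; ring⟩
      · intro P hP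
        rw [Polynomial.mem_normalizedFactors_iff habc0] at hP
        have : 0 < v P a + v P b + v P W := by
          rcases hmul P hP.2.2 hP.1 with h | h | h
          · have := (v_pos hP.1 hP.2.1 ha0).2 h
            omega
          · have := (v_pos hP.1 hP.2.1 hb0).2 h
            omega
          · have := (v_pos hP.1 hP.2.1 hW0).2 h
            omega
        simp only [he]
        rw [if_pos this]
    -- degrees
    have g1 : G.natDegree + W.natDegree = 12 * k := by
      rw [← natDegree_mul hG0 hW0, ← hDW, hDd]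
    have g2 : G.natDegree + a.natDegree ≤ 12 * k := by
      rw [← natDegree_mul hG0 ha0, ← hGa, natDegree_pow]
      omega
    have g3 : G.natDegree + b.natDegree ≤ 12 * k := by
      rw [← natDegree_mul hG0 hb0, ← hGb, natDegree_pow]
      omega
    -- the weight outside T
    set f : ℚ[X] → ℕ := fun P => if P ∈ T then w P else 0 with hf
    have hloc : ∀ P ∈ S, 6 * (e P * P.natDegree) + v P G * P.natDegree ≤
        2 * (v P a * P.natDegree) + 3 * (v P b * P.natDegree) + 6 * (f P * P.natDegree) := by
      intro P hP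
      rw [hSmem] at hP
      obtain ⟨hirr, hmon, -⟩ := hP
      have key : 6 * e P + v P G ≤ 2 * v P a + 3 * v P b + 6 * f P := by
        refine localIneq (v P A) (v P B) (v P D) (v P G) (v P a) (v P b) (v P W) (f P) (e P)
          ?_ ?_ ?_ ?_ ?_ ?_ ?_ rfl ?_ ?_
        · rw [← v_pow, hGa, v_mul P hG0 ha0]
        · rw [← v_pow, hGb, v_mul P hG0 hb0]
        · rw [hDW, v_mul P hG0 hW0]
        · by_contra hcon
          push Not at hcon
          exact hirr.not_isUnit (hab.isUnit_of_dvd'
            ((v_pos hirr hmon ha0).1 (Nat.pos_of_ne_zero hcon.1))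
            ((v_pos hirr hmon hb0).1 (Nat.pos_of_ne_zero hcon.2)))
        · by_contra hcon
          push Not at hcon
          exact hirr.not_isUnit (haW.isUnit_of_dvd'
            ((v_pos hirr hmon ha0).1 (Nat.pos_of_ne_zero hcon.1))
            ((v_pos hirr hmon hW0).1 (Nat.pos_of_ne_zero hcon.2)))
        · by_contra hcon
          push Not at hcon
          exact hirr.not_isUnit (hbW.isUnit_of_dvd'
            ((v_pos hirr hmon hb0).1 (Nat.pos_of_ne_zero hcon.1))
            ((v_pos hirr hmon hW0).1 (Nat.pos_of_ne_zero hcon.2)))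
        · rintro ⟨h1, h2⟩
          exact hmin P hirr (pow_dvd hA0 h1) (pow_dvd hB0 h2)
        · intro hd hal
          have hPD : P ∣ D := (v_pos hirr hmon hD0).1 hd
          have hPT : P ∈ T := hT2 P hirr hmon hPD
          simp only [hf]
          rw [if_pos hPT]
          refine hw1 P hPT fun h => ?_
          have := (v_pos hirr hmon hA0).2 h
          omega
        · intro hd hal
          have hPD : P ∣ D := (v_pos hirr hmon hD0).1 hd
          have hPT : P ∈ T := hT2 P hirr hmon hPD
          simp only [hf]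
          rw [if_pos hPT]
          exact hw2 P hPT ((v_pos hirr hmon hA0).1 hal)
      nlinarith [Nat.zero_le P.natDegree]
    have hsum := Finset.sum_le_sum hloc
    simp only [Finset.sum_add_distrib, ← Finset.mul_sum] at hsum
    rw [← dG, ← da, ← db] at hsum
    have hTS : ∑ P ∈ S, f P * P.natDegree = ∑ P ∈ T, w P * P.natDegree := by
      have hTsub : T ⊆ S := by
        intro P hP
        rw [hSmem]
        obtain ⟨h1, h2⟩ := hT1 P hP
        exact ⟨h1, h2, (hT3 P hP).trans ⟨A * B * (G * a * b * W), by rw [hN]; ring⟩⟩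
      rw [← Finset.sum_subset hTsub]
      · refine Finset.sum_congr rfl fun P hP => ?_
        simp only [hf]
        rw [if_pos hP]
      · intro P _ hP
        simp only [hf]
        rw [if_neg hP, zero_mul]
    rw [hTS] at hsum
    omega

end

end Pool.Agent.W499.FR
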